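import Mathlib

/-!
# Lower bounds for the numbers of positive and negative eigenvalues
-/

set_option autoImplicit false

open scoped Matrix ComplexOrder

namespace Pool.Agent.R113.IN

variable {V : Type} [Fintype V] [DecidableEq V]

theorem card_filter_roots {A : Matrix V V ℝ} (hA : A.IsHermitian) (p : ℝ → Prop)
    [DecidablePred p] : (A.charpoly.roots.filter p).card =
      (Finset.univ.filter (fun i => p (hA.eigenvalues i))).card := by
  rw [hA.roots_charpoly_eq_eigenvalues, Multiset.filter_map, Multiset.card_map]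
  rfl

/-- If `ε A` is positive definite on the image of an injective linear map from a space of
dimension `|K|`, then `ε A` has at least `|K|` positive eigenvalues. -/
theorem card_le_pos {A : Matrix V V ℝ} (hA : A.IsHermitian) (ε : ℝ) {K : Type} [Fintype K]
    (ext : (K → ℝ) →ₗ[ℝ] (V → ℝ))
    (hpd : ∀ z, z ≠ 0 → 0 < ε * ((ext z) ⬝ᵥ (A *ᵥ (ext z)))) :
    Fintype.card K ≤ (Finset.univ.filter (fun i => 0 < ε * hA.eigenvalues i)).card := by
  by_contra hcon
  push Not at hcon
  set U : Matrix V V ℝ := (hA.eigenvectorUnitary : Matrix V V ℝ) with hU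
  set I : Finset V := Finset.univ.filter (fun i => 0 < ε * hA.eigenvalues i) with hI
  let f : (K → ℝ) →ₗ[ℝ] ({i // i ∈ I} → ℝ) :=
    (LinearMap.funLeft ℝ ℝ (fun i : {i // i ∈ I} => i.1)) ∘ₗ (Matrix.mulVecLin (star U)) ∘ₗ ext
  have hker : LinearMap.ker f ≠ ⊥ := by
    apply LinearMap.ker_ne_bot_of_finrank_lt
    simpa using hcon
  obtain ⟨z, hz, hz0⟩ := (Submodule.ne_bot_iff _).1 hker
  set w : V → ℝ := ext z with hw
  set y : V → ℝ := star U *ᵥ w with hy
  have hy0 : ∀ i, 0 < ε * hA.eigenvalues i → y i = 0 := by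
    intro i hi
    have hmem : i ∈ I := by simp only [hI, Finset.mem_filter, Finset.mem_univ, true_and]; exact hi
    have h1 : f z = 0 := hz
    have := congrFun h1 ⟨i, hmem⟩
    simpa [f, hy, hw, LinearMap.funLeft_apply] using this
  have hquad : w ⬝ᵥ (A *ᵥ w) = ∑ i, hA.eigenvalues i * y i ^ 2 := by
    have hspec : A = U * Matrix.diagonal (RCLike.ofReal ∘ hA.eigenvalues : V → ℝ) * star U := by
      conv_lhs => rw [hA.spectral_theorem, Unitary.conjStarAlgAut_apply]
    have hT : star U = Uᵀ := by
      rw [Matrix.star_eq_conjTranspose, Matrix.conjTranspose_eq_transpose_of_trivial]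
    conv_lhs => rw [hspec]
    rw [← Matrix.mulVec_mulVec, ← Matrix.mulVec_mulVec, ← hy, Matrix.dotProduct_mulVec,
      ← Matrix.mulVec_transpose, ← hT, ← hy]
    simp only [dotProduct, Matrix.mulVec_diagonal, Function.comp_apply, RCLike.ofReal_real_eq_id,
      id_eq]
    refine Finset.sum_congr rfl fun i _ => ?_
    ring
  have h0 := hpd z hz0
  rw [← hw, hquad, Finset.mul_sum] at h0
  have hle : ∑ i, ε * (hA.eigenvalues i * y i ^ 2) ≤ 0 := by
    apply Finset.sum_nonpos
    intro i _
    by_cases h : 0 < ε * hA.eigenvalues i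
    · rw [hy0 i h]; simp
    · push Not at h
      rw [← mul_assoc]
      exact mul_nonpos_of_nonpos_of_nonneg h (sq_nonneg _)
  exact absurd h0 (not_lt.2 hle)

/-- number of positive eigenvalues, with multiplicity -/
noncomputable def posEig (A : Matrix V V ℝ) : ℕ :=
  (A.charpoly.roots.filter (fun x => 0 < x)).card

/-- number of negative eigenvalues, with multiplicity -/
noncomputable def negEig (A : Matrix V V ℝ) : ℕ :=
  (A.charpoly.roots.filter (fun x => x < 0)).card

theorem card_le_posEig {A : Matrix V V ℝ} (hA : A.IsHermitian) {K : Type} [Fintype K]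
    (ext : (K → ℝ) →ₗ[ℝ] (V → ℝ)) (hpd : ∀ z, z ≠ 0 → 0 < ((ext z) ⬝ᵥ (A *ᵥ (ext z)))) :
    Fintype.card K ≤ posEig A := by
  have := card_le_pos hA 1 ext (by simpa using hpd)
  rw [posEig, card_filter_roots hA]
  simpa using this

theorem card_le_negEig {A : Matrix V V ℝ} (hA : A.IsHermitian) {K : Type} [Fintype K]
    (ext : (K → ℝ) →ₗ[ℝ] (V → ℝ)) (hpd : ∀ z, z ≠ 0 → ((ext z) ⬝ᵥ (A *ᵥ (ext z))) < 0) :
    Fintype.card K ≤ negEig A := by
  have := card_le_pos hA (-1) ext (by simpa using hpd)
  rw [negEig, card_filter_roots hA]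
  simpa using this

theorem posEig_add_negEig_le {A : Matrix V V ℝ} (hA : A.IsHermitian) :
    posEig A + negEig A ≤ Fintype.card V := by
  rw [posEig, negEig, card_filter_roots hA, card_filter_roots hA, ← Finset.card_union_of_disjoint,
    ← Finset.card_univ]
  · exact Finset.card_le_card (Finset.subset_univ _)
  · rw [Finset.disjoint_filter]
    intro i _ h1 h2
    exact lt_asymm h1 h2

end Pool.Agent.R113.IN
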